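import Pool.Agent.H193R5.EG.Stmts
import Pool.Agent.H88R2.DC.ORD
import Pool.Agent.H88R2.DC.COMtwo
import Pool.Agent.H88R2.DC.TLFT

/-!
# Task LEMM: a factor of small multiplicity of a leading form gives a non-torsion partner
-/

set_option autoImplicit false

open MvPolynomial Pool.Agent.H88R2.DC

namespace Pool.Agent.H68R3.EG

section
variable {K : Type} [Field K]

theorem gord_pb_formula (q f₁ h : MvPolynomial (Fin 2) K) (m b : ℕ) :
    pb (q ^ (m + 1) * f₁) (q ^ b * h) =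
      q ^ (b + m) * ((((m + 1 : ℕ) : MvPolynomial (Fin 2) K) * f₁ * pb q h -
        (b : MvPolynomial (Fin 2) K) * h * pb q f₁) + q * pb f₁ h) := by
  unfold pb
  rcases b with _ | k
  · simp only [pow_zero, one_mul, Nat.cast_zero, Derivation.leibniz, Derivation.leibniz_pow,
      smul_eq_mul, nsmul_eq_mul, Nat.add_sub_cancel]
    push_cast
    ring
  · simp only [Derivation.leibniz, Derivation.leibniz_pow, smul_eq_mul, nsmul_eq_mul,
      Nat.add_sub_cancel]
    push_cast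
    ring

theorem gord [CharZero K] (w : Fin 2 → ℕ) (hw : ∀ i, 0 < w i)
    (f : MvPolynomial (Fin 2) K) (n : ℕ) (hf : IsWeightedHomogeneous w f n)
    (q : MvPolynomial (Fin 2) K) (hq : Irreducible q) (m : ℕ)
    (hqf : q ^ (m + 1) ∣ f) (hqf' : ¬ q ^ (m + 2) ∣ f)
    (g : MvPolynomial (Fin 2) K) (d : ℕ) (hg : IsWeightedHomogeneous w g d) (b : ℕ)
    (hb : q ^ b ∣ g) (hb' : ¬ q ^ (b + 1) ∣ g) (hnm : n * b ≠ (m + 1) * d) :
    q ^ (b + m) ∣ pb f g ∧ ¬ q ^ (b + m + 1) ∣ pb f g := by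
  obtain ⟨f₁, rfl⟩ := hqf
  obtain ⟨h, rfl⟩ := hb
  have hq0 : q ≠ 0 := hq.ne_zero
  have hqf₁ : ¬ q ∣ f₁ := by
    rintro ⟨r, rfl⟩
    exact hqf' ⟨r, by ring⟩
  have hf₁0 : f₁ ≠ 0 := fun e => hqf₁ (e ▸ dvd_zero q)
  have hf0 : q ^ (m + 1) * f₁ ≠ 0 := mul_ne_zero (pow_ne_zero _ hq0) hf₁0
  have hh0 : ¬ q ∣ h := by
    rintro ⟨r, rfl⟩
    exact hb' ⟨r, by ring⟩
  have hh0' : h ≠ 0 := fun e => hh0 (e ▸ dvd_zero q)
  have hg0 : q ^ b * h ≠ 0 := mul_ne_zero (pow_ne_zero b hq0) hh0'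
  have hfq : q ^ (m + 1) * f₁ = q * (q ^ m * f₁) := by ring
  obtain ⟨e, he⟩ := ord_hom_of_mul (p := q) (r := q ^ m * f₁) (by rwa [← hfq]) (by rwa [← hfq])
  obtain ⟨d₁, hd₁⟩ := ord_hom_of_mul (p := f₁) (r := q ^ (m + 1)) (by rwa [mul_comm])
    (by rwa [mul_comm])
  obtain ⟨dh, hdh⟩ := ord_hom_of_mul (p := h) (r := q ^ b) (by rwa [mul_comm]) (by rwa [mul_comm])
  have hn : n = (m + 1) * e + d₁ := by
    have := IsWeightedHomogeneous.inj_right hf0 hf ((he.pow (m + 1)).mul hd₁)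
    simpa using this
  have hd : d = b * e + dh := by
    have := IsWeightedHomogeneous.inj_right hg0 hg ((he.pow b).mul hdh)
    simpa using this
  have hqp : Prime q := hq.prime
  -- the constant
  set κ : K := ((m + 1 : ℕ) : K) * dh - b * d₁ with hκ
  have hκ0 : κ ≠ 0 := by
    have h1 : (((m + 1 : ℕ) : ℤ) * d - b * n : ℤ) ≠ 0 := by
      intro h
      apply hnm
      have : (((m + 1 : ℕ) : ℤ) * (d : ℤ)) = b * n := by linarith
      have h3 : (m + 1) * d = b * n := by exact_mod_cast this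
      rw [h3, mul_comm]
    have h2 : κ = (((m + 1 : ℕ) : ℤ) * d - b * n : ℤ) := by
      rw [hκ, hn, hd]
      push_cast
      ring
    rw [h2]
    exact_mod_cast h1
  -- main claim
  have hR : ¬ q ∣ (((m + 1 : ℕ) : MvPolynomial (Fin 2) K) * f₁ * pb q h -
        (b : MvPolynomial (Fin 2) K) * h * pb q f₁) := by
    intro hdiv
    have eq := ord_euler he
    have eh := ord_euler hdh
    have ef := ord_euler hd₁
    have hCκ : (C κ : MvPolynomial (Fin 2) K) = ((m + 1 : ℕ) : MvPolynomial (Fin 2) K) * dh -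
        b * d₁ := by
      rw [hκ]
      simp
    have hunit : IsUnit (C κ : MvPolynomial (Fin 2) K) :=
      (isUnit_iff_ne_zero.2 hκ0).map C
    -- some partial derivative of `q` is nonzero
    have hex : pderiv 0 q ≠ 0 ∨ pderiv 1 q ≠ 0 := by
      by_contra hcon
      push Not at hcon
      rw [hcon.1, hcon.2, mul_zero, mul_zero, add_zero] at eq
      have he0 : (e : MvPolynomial (Fin 2) K) = 0 := by
        rcases mul_eq_zero.1 eq.symm with h | h
        · exact h
        · exact absurd h hq0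
      have he0' : e = 0 := by exact_mod_cast he0
      subst he0'
      obtain ⟨c, rfl⟩ := ord_hom_zero hw he
      apply hq.not_isUnit
      refine (isUnit_iff_ne_zero.2 ?_).map C
      rintro rfl
      exact hq0 (map_zero C)
    have fin : ∀ i, pderiv i q ≠ 0 → q ∣ C κ * (f₁ * h * pderiv i q) → False := by
      intro i hi hdi
      have h1 : q ∣ f₁ * h * pderiv i q := (hunit.dvd_mul_left).1 hdi
      rcases hqp.dvd_or_dvd h1 with h2 | h2
      · rcases hqp.dvd_or_dvd h2 with h3 | h3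
        · exact hqf₁ h3
        · exact hh0 h3
      · exact ord_not_dvd_pderiv hw he i hi h2
    obtain ⟨r, hr⟩ := hdiv
    unfold pb at hr
    generalize ((m + 1 : ℕ) : MvPolynomial (Fin 2) K) = M at hr hCκ
    rcases hex with h0 | h1
    · apply fin 0 h0
      refine ⟨(w 1 : MvPolynomial (Fin 2) K) * X 1 * r + (e : MvPolynomial (Fin 2) K) *
        (M * f₁ * pderiv 0 h - (b : MvPolynomial (Fin 2) K) * h * pderiv 0 f₁), ?_⟩
      rw [hCκ]
      linear_combination ((w 1 : MvPolynomial (Fin 2) K) * X 1) * hr +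
        (M * f₁ * pderiv 0 h - (b : MvPolynomial (Fin 2) K) * h * pderiv 0 f₁) * eq -
        (M * f₁ * pderiv 0 q) * eh + ((b : MvPolynomial (Fin 2) K) * h * pderiv 0 q) * ef
    · apply fin 1 h1
      refine ⟨-((w 0 : MvPolynomial (Fin 2) K) * X 0 * r) + (e : MvPolynomial (Fin 2) K) *
        (M * f₁ * pderiv 1 h - (b : MvPolynomial (Fin 2) K) * h * pderiv 1 f₁), ?_⟩
      rw [hCκ]
      linear_combination (-(w 0 : MvPolynomial (Fin 2) K) * X 0) * hr +
        (M * f₁ * pderiv 1 h - (b : MvPolynomial (Fin 2) K) * h * pderiv 1 f₁) * eq -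
        (M * f₁ * pderiv 1 q) * eh + ((b : MvPolynomial (Fin 2) K) * h * pderiv 1 q) * ef
  rw [gord_pb_formula]
  refine ⟨Dvd.intro _ rfl, ?_⟩
  rw [pow_succ, mul_dvd_mul_iff_left (pow_ne_zero _ hq0)]
  intro hcon
  exact hR ((dvd_add_left (Dvd.intro _ rfl)).1 hcon)

/-- orders and degrees of the iterated brackets -/
theorem gord_iter [CharZero K] (w : Fin 2 → ℕ) (hw : ∀ i, 0 < w i)
    (f : MvPolynomial (Fin 2) K) (n : ℕ) (hf : IsWeightedHomogeneous w f n)
    (q : MvPolynomial (Fin 2) K) (hq : Irreducible q) (m : ℕ)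
    (hqf : q ^ (m + 1) ∣ f) (hqf' : ¬ q ^ (m + 2) ∣ f) (hn : (m + 1) * (w 0 + w 1) < n)
    (g : MvPolynomial (Fin 2) K) (d : ℕ) (hg : IsWeightedHomogeneous w g d) (hd : 0 < d)
    (hqg : ¬ q ∣ g) (k : ℕ) :
    IsWeightedHomogeneous w ((pb f)^[k] g) (d + k * (n - (w 0 + w 1))) ∧
      q ^ (k * m) ∣ (pb f)^[k] g ∧ ¬ q ^ (k * m + 1) ∣ (pb f)^[k] g := by
  have hn' : w 0 + w 1 < n := by nlinarith [hw 0, hw 1]
  induction k with
  | zero => exact ⟨by simpa using hg, by simp, by simpa using hqg⟩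
  | succ k ih =>
    rw [Function.iterate_succ_apply']
    have h1 := COM2_pb_hom w f ((pb f)^[k] g) n (d + k * (n - (w 0 + w 1))) hf ih.1 hn'
    have h2 := gord w hw f n hf q hq m hqf hqf' ((pb f)^[k] g)
      (d + k * (n - (w 0 + w 1))) ih.1 (k * m) ih.2.1 ih.2.2 (by
        obtain ⟨t, ht⟩ := Nat.exists_eq_add_of_le hn'.le
        rw [show n - (w 0 + w 1) = t by omega]
        intro hcon
        have h3 : (m + 1) * (w 0 + w 1) < (w 0 + w 1) + t := by rw [← ht]; exact hn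
        have h4 : k * ((m + 1) * (w 0 + w 1)) ≤ k * ((w 0 + w 1) + t) :=
          Nat.mul_le_mul_left k h3.le
        rw [ht] at hcon
        have h5 : ((w 0 + w 1) + t) * (k * m) < (m + 1) * (d + k * t) := by
          have h6 : 0 < (m + 1) * d := Nat.mul_pos (Nat.succ_pos _) hd
          nlinarith [h4, h6]
        omega)
    have e1 : d + (k + 1) * (n - (w 0 + w 1)) = d + k * (n - (w 0 + w 1)) + (n - (w 0 + w 1)) := by
      ring
    have e2 : (k + 1) * m = k * m + m := by ring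
    rw [e1, e2]
    exact ⟨h1, h2⟩

theorem lemm_indP [CharZero K] (w : Fin 2 → ℕ) (hw : ∀ i, 0 < w i)
    (f : MvPolynomial (Fin 2) K) (n : ℕ) (hf : IsWeightedHomogeneous w f n)
    (q : MvPolynomial (Fin 2) K) (hq : Irreducible q) (m : ℕ)
    (hqf : q ^ (m + 1) ∣ f) (hqf' : ¬ q ^ (m + 2) ∣ f) (hn : (m + 1) * (w 0 + w 1) < n)
    (g : MvPolynomial (Fin 2) K) (d : ℕ) (hg : IsWeightedHomogeneous w g d) (hd : 0 < d)
    (hqg : ¬ q ∣ g) : IndP f (fun _ : Fin 1 => g) := by
  classical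
  intro c hc
  by_contra hc0
  have hit := gord_iter w hw f n hf q hq m hqf hqf' hn g d hg hd hqg
  have hn' : w 0 + w 1 < n := by nlinarith [hw 0, hw 1]
  set k0 := w 0 + w 1 with hk0
  set dg : Fin 1 × ℕ × ℕ → ℕ := fun p => n * p.2.1 + (d + p.2.2 * (n - k0)) with hdg
  have hterm : ∀ p : Fin 1 × ℕ × ℕ,
      IsWeightedHomogeneous w (f ^ p.2.1 * (pb f)^[p.2.2] g) (dg p) := by
    intro p
    have h1 := (hf.pow p.2.1).mul (hit p.2.2).1
    rw [smul_eq_mul, mul_comm p.2.1 n] at h1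
    exact h1
  have hne : c.support.Nonempty := Finsupp.support_nonempty_iff.mpr hc0
  obtain ⟨p1, hp1⟩ := hne
  set S := c.support.filter fun p => dg p = dg p1 with hS
  have hSne : S.Nonempty := ⟨p1, by simp [hS, Finsupp.mem_support_iff.1 hp1]⟩
  have hsum : ∑ p ∈ S, c p • (f ^ p.2.1 * (pb f)^[p.2.2] g) = 0 := by
    have h1 : weightedHomogeneousComponent w (dg p1)
        (c.sum fun p t => t • (f ^ p.2.1 * (pb f)^[p.2.2] g)) = 0 := by
      rw [hc, map_zero]
    rw [Finsupp.sum, map_sum] at h1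
    rw [hS, Finset.sum_filter]
    refine Eq.trans (Finset.sum_congr rfl fun p hp => ?_) h1
    rw [map_smul]
    split_ifs with hd'
    · rw [← hd', weightedHomogeneousComponent_eq_self (hterm p)]
    · rw [(hterm p).weightedHomogeneousComponent_ne _ (Ne.symm hd'), smul_zero]
  obtain ⟨p0, hp0, hmax⟩ := Finset.exists_max_image S (fun p => p.2.2) hSne
  have hp0' : c p0 ≠ 0 ∧ dg p0 = dg p1 := by
    rw [hS, Finset.mem_filter, Finsupp.mem_support_iff] at hp0
    exact hp0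
  -- the others have larger order
  have hlt : ∀ p ∈ S.erase p0, m * p0.2.2 + (m + 1) * p0.2.1 + 1 ≤
      m * p.2.2 + (m + 1) * p.2.1 := by
    intro p hp
    rw [Finset.mem_erase, hS, Finset.mem_filter] at hp
    obtain ⟨hpp, hpc, hpd⟩ := hp
    have h1 : p.2.2 ≤ p0.2.2 := hmax p (by rw [hS, Finset.mem_filter]; exact ⟨hpc, hpd⟩)
    have h2 : n * p.2.1 + (d + p.2.2 * (n - k0)) = n * p0.2.1 + (d + p0.2.2 * (n - k0)) := by
      have : dg p = dg p0 := hpd.trans hp0'.2.symm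
      exact this
    obtain ⟨s, hs⟩ := Nat.exists_eq_add_of_le h1
    have h3 : n * p.2.1 = n * p0.2.1 + s * (n - k0) := by
      rw [hs] at h2
      nlinarith [h2]
    have hs0 : 0 < s := by
      rcases Nat.eq_zero_or_pos s with h0 | h0
      · exfalso
        apply hpp
        rw [h0, zero_mul, add_zero] at h3
        have h4 : p.2.1 = p0.2.1 := Nat.eq_of_mul_eq_mul_left (by omega) h3
        refine Prod.ext (Subsingleton.elim _ _) (Prod.ext h4 ?_)
        rw [hs, h0, add_zero]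
      · exact h0
    -- `p.2.1 = p0.2.1 + l` with `n l = s (n - k0)`
    have h5 : p0.2.1 ≤ p.2.1 := by
      by_contra hcon
      push Not at hcon
      have : n * p.2.1 < n * p0.2.1 := Nat.mul_lt_mul_of_pos_left hcon (by omega)
      omega
    obtain ⟨l, hl⟩ := Nat.exists_eq_add_of_le h5
    rw [hl, mul_add] at h3
    have h6 : n * l = s * (n - k0) := by omega
    have h7 : m * s < (m + 1) * l := by
      obtain ⟨t, ht⟩ := Nat.exists_eq_add_of_le hn'.le
      rw [show n - k0 = t by omega] at h6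
      by_contra hcon
      push Not at hcon
      -- `(m+1) l ≤ m s`, so `(m+1) s t = (m+1) n l ≤ m n s`
      have h8 : n * ((m + 1) * l) ≤ n * (m * s) := Nat.mul_le_mul_left n hcon
      have h9 : (m + 1) * (s * t) ≤ m * s * n := by
        calc (m + 1) * (s * t) = n * ((m + 1) * l) := by rw [← h6]; ring
          _ ≤ n * (m * s) := h8
          _ = m * s * n := by ring
      have h10 : s * ((m + 1) * t) ≤ s * (m * n) := by
        calc s * ((m + 1) * t) = (m + 1) * (s * t) := by ring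
          _ ≤ m * s * n := h9
          _ = s * (m * n) := by ring
      have h11 : (m + 1) * t ≤ m * n := Nat.le_of_mul_le_mul_left h10 hs0
      rw [ht] at h11
      have h12 : (m + 1) * k0 < k0 + t := by rw [← ht]; exact hn
      nlinarith [h11, h12]
    rw [hl, hs]
    nlinarith [h7]
  rw [← Finset.add_sum_erase _ _ hp0] at hsum
  set N := m * p0.2.2 + (m + 1) * p0.2.1 with hN
  have hd1 : q ^ (N + 1) ∣ ∑ p ∈ S.erase p0, c p • (f ^ p.2.1 * (pb f)^[p.2.2] g) := by
    refine Finset.dvd_sum fun p hp => ?_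
    rw [smul_eq_C_mul]
    refine Dvd.dvd.mul_left ?_ _
    refine (pow_dvd_pow q (hlt p hp)).trans ?_
    rw [pow_add, mul_comm (q ^ (m * p.2.2))]
    refine mul_dvd_mul ?_ ?_
    · rw [pow_mul]; exact pow_dvd_pow_of_dvd hqf _
    · rw [mul_comm m]; exact (hit p.2.2).2.1
  have hd2 : q ^ (N + 1) ∣ c p0 • (f ^ p0.2.1 * (pb f)^[p0.2.2] g) := by
    refine (dvd_add_left hd1).1 ?_
    rw [hsum]
    exact dvd_zero _
  rw [smul_eq_C_mul] at hd2
  have hunit : IsUnit (C (c p0) : MvPolynomial (Fin 2) K) :=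
    (isUnit_iff_ne_zero.2 hp0'.1).map C
  rw [hunit.dvd_mul_left] at hd2
  obtain ⟨f', hf'⟩ := hqf
  have hqf1 : ¬ q ∣ f' := by
    rintro ⟨f'', h''⟩
    exact hqf' ⟨f'', by rw [hf', h'']; ring⟩
  have e1 : N + 1 = (m + 1) * p0.2.1 + (p0.2.2 * m + 1) := by rw [hN]; ring
  have e2 : f ^ p0.2.1 * (pb f)^[p0.2.2] g =
      q ^ ((m + 1) * p0.2.1) * (f' ^ p0.2.1 * (pb f)^[p0.2.2] g) := by
    conv_lhs => rw [show f ^ p0.2.1 = (q ^ (m + 1) * f') ^ p0.2.1 by rw [← hf']]
    rw [mul_pow, ← pow_mul, mul_assoc]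
  rw [e2, e1, pow_add, mul_dvd_mul_iff_left (pow_ne_zero _ hq.ne_zero)] at hd2
  have hd4 : q ^ (p0.2.2 * m + 1) ∣ (pb f)^[p0.2.2] g := by
    refine hq.prime.pow_dvd_of_dvd_mul_left _ ?_ hd2
    intro h
    exact hqf1 (hq.prime.dvd_of_dvd_pow h)
  exact (hit p0.2.2).2.2 hd4

end

open Pool.Agent.H193R5.EG in
theorem lemm_holds : LEMM := by
  intro K A _ _ _ _ sy br hS w hw a n ha q hq m hm hd hd' hlt
  obtain ⟨m, rfl⟩ : ∃ m', m = m' + 1 := ⟨m - 1, by omega⟩
  have hn' : w 0 + w 1 < n := by nlinarith [hw 0, hw 1]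
  have hf : IsWeightedHomogeneous w (topS sy w n a) n := by
    unfold topS
    exact weightedHomogeneousComponent_isWeightedHomogeneous _ _
  obtain ⟨i, hi⟩ : ∃ i : Fin 2, ¬ q ∣ (X i : MvPolynomial (Fin 2) K) := by
    by_contra hcon
    push Not at hcon
    have h0 : (X 0 : MvPolynomial (Fin 2) K) ∣ q := by
      obtain ⟨r, hr⟩ := hcon 0
      have hX : Irreducible (X 0 : MvPolynomial (Fin 2) K) := (X_prime (i := 0)).irreducible
      have hr1 : IsUnit r := (hX.isUnit_or_isUnit hr).resolve_left hq.not_isUnit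
      rw [hr]
      exact hr1.mul_right_dvd.2 dvd_rfl
    have h1 := h0.trans (hcon 1)
    rw [X_dvd_X] at h1
    exact absurd h1 (by decide)
  have hXh : IsWeightedHomogeneous w (X i : MvPolynomial (Fin 2) K) (w i) :=
    isWeightedHomogeneous_X K w i
  have hind := lemm_indP w hw (topS sy w n a) n hf q hq m hd hd' hlt (X i) (w i) hXh (hw i) hi
  exact ⟨sy.symm (X i), lft_holds K A sy br hS w hw a n ha hn' 1 (fun _ => w i)
    (fun _ => X i) (fun _ => hXh) hind⟩

end Pool.Agent.H68R3.EG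

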